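import Mathlib

/-!
# The Berge extremal function of `1_1 × C_4` has order at least `m ^ (5 / 2)`

Matrices with entries in `{0, 1}` are functions to `Bool` (`true` is `1`). We disprove
`Bh(m, 1_1 × C_4) = Θ(m ^ 2)`: for all `m ≥ 12` one has `Bh(m, 1_1 × C_4) ≥ m ^ (5 / 2) / 4000`.
The matrix is the incidence matrix of the tripartite 3-uniform hypergraph on three copies of
`F_p × F_p^*` whose edges are the triples with `x₁ + y₁ + z₁ = x₂ y₂ z₂`: the link of every vertex
is free of 4-cycles.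
-/

set_option autoImplicit false

namespace Pool.Agent.Zk72.Kept.BergeFiveHalves

open Asymptotics Filter

/-- `A` has `F` as a Berge hypergraph: after deleting and permuting rows and columns of `A` (this is
what the two injections do) one gets a matrix of the size of `F` which is entrywise at least `F`. -/
def HasBerge {k l R C : Type} (F : k → l → Bool) (A : R → C → Bool) : Prop :=
  ∃ (r : k ↪ R) (c : l ↪ C), ∀ i j, F i j = true → A (r i) (c j) = true

/-- A matrix is simple if it has no two equal columns. -/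
def IsSimple {R C : Type} (A : R → C → Bool) : Prop :=
  Function.Injective fun (j : C) (i : R) => A i j

/-- `Bh m F`: the largest number of columns of a simple matrix with `m` rows which does not have
`F` as a Berge hypergraph. -/
noncomputable def Bh {k l : Type} (m : ℕ) (F : k → l → Bool) : ℕ :=
  sSup {n | ∃ A : Fin m → Fin n → Bool, IsSimple A ∧ ¬ HasBerge F A}

/-- The product of two matrices: its columns are all ways of placing a column of `A` above a column
of `B`. -/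
def mprod {a b c d : Type} (A : a → b → Bool) (B : c → d → Bool) : a ⊕ c → b × d → Bool :=
  fun i j => Sum.elim (fun i => A i j.1) (fun i => B i j.2) i

/-- The identity matrix `I_2`. -/
def I2 : Fin 2 → Fin 2 → Bool := fun i j => decide (i = j)

/-- The matrix `C_4 = I_2 × I_2`. -/
def C4 : Fin 2 ⊕ Fin 2 → Fin 2 × Fin 2 → Bool := mprod I2 I2

/-- The matrix `1_1 × C_4`. -/
def oneC4 : Fin 1 ⊕ (Fin 2 ⊕ Fin 2) → Fin 1 × (Fin 2 × Fin 2) → Bool :=
  mprod (fun _ _ => true) C4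

theorem le_Bh {k l : Type} {m n : ℕ} {F : k → l → Bool} {A : Fin m → Fin n → Bool}
    (h1 : IsSimple A) (h2 : ¬ HasBerge F A) : n ≤ Bh m F := by
  refine le_csSup ⟨Fintype.card (Fin m → Bool), ?_⟩ ⟨A, h1, h2⟩
  rintro n' ⟨A', h, -⟩
  have := Fintype.card_le_of_injective _ h
  rwa [Fintype.card_fin] at this

/-- Rows of arbitrary (finite) index type, padded with zero rows. -/
theorem card_le_Bh {k l R C : Type} [Fintype R] [Fintype C] [DecidableEq R] {m : ℕ}
    {F : k → l → Bool} (hF : ∀ i, ∃ j, F i j = true) {A : R → C → Bool}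
    (h1 : IsSimple A) (h2 : ¬ HasBerge F A) (hm : Fintype.card R ≤ m) :
    Fintype.card C ≤ Bh m F := by
  classical
  obtain ⟨f⟩ : Nonempty (R ↪ Fin m) := Function.Embedding.nonempty_of_card_le (by simpa using hm)
  let g := Fintype.equivFin C
  let A' : Fin m → Fin (Fintype.card C) → Bool := fun i j =>
    if h : ∃ x, f x = i then A h.choose (g.symm j) else false
  have hA' : ∀ x j, A' (f x) j = A x (g.symm j) := by
    intro x j
    have h : ∃ y, f y = f x := ⟨x, rfl⟩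
    have h3 : h.choose = x := f.injective h.choose_spec
    simp only [A', dif_pos h, h3]
  refine le_Bh (A := A') ?_ ?_
  · intro j j' hjj
    apply g.symm.injective
    apply h1
    funext x
    have := congrFun hjj (f x)
    simpa only [hA'] using this
  · rintro ⟨r, c, hrc⟩
    apply h2
    have hr : ∀ i, ∃ x, f x = r i := by
      intro i
      obtain ⟨j, hj⟩ := hF i
      have := hrc i j hj
      by_contra hcon
      simp only [A', dif_neg hcon] at this
      cases this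
    choose r' hr' using hr
    refine ⟨⟨r', fun i i' h => r.injective (by rw [← hr', ← hr', h])⟩,
      ⟨fun j => g.symm (c j), fun j j' h => c.injective (g.symm.injective h)⟩, fun i j hij => ?_⟩
    have := hrc i j hij
    rw [← hr', hA'] at this
    exact this

section construction

variable (p : ℕ) [hp : Fact p.Prime]

/-- Vertices of one part. -/
abbrev Vx : Type := ZMod p × (ZMod p)ˣ

/-- The edges. -/
abbrev Ed : Type := {e : Fin 3 → Vx p // ∑ i, (e i).1 = ∏ i, ((e i).2 : ZMod p)}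

/-- The incidence matrix. -/
def inc : Fin 3 × Vx p → Ed p → Bool := fun v e => decide (e.1 v.1 = v.2)

theorem inc_simple : IsSimple (inc p) := by
  intro e e' h
  apply Subtype.ext
  funext i
  have := congrFun h (i, e.1 i)
  simp only [inc, decide_true] at this
  exact (of_decide_eq_true this.symm).symm

theorem fin3_aux {i j k : Fin 3} (hij : i ≠ j) (hik : i ≠ k) (hjk : j ≠ k) :
    (Finset.univ : Finset (Fin 3)) = {i, j, k} := by
  revert i j k; decide

theorem fin3_third {i j k l : Fin 3} (hij : i ≠ j) (hik : i ≠ k) (hjk : j ≠ k) (h1 : l ≠ i)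
    (h2 : l ≠ k) : l = j := by
  have := i.isLt
  have := j.isLt
  have := k.isLt
  have := l.isLt
  simp only [ne_eq, Fin.ext_iff] at *
  omega

theorem eq_of_edge {i j k : Fin 3} (hij : i ≠ j) (hik : i ≠ k) (hjk : j ≠ k) (e : Ed p) :
    (e.1 i).1 + (e.1 j).1 + (e.1 k).1 =
      ((e.1 i).2 : ZMod p) * ((e.1 j).2 : ZMod p) * ((e.1 k).2 : ZMod p) := by
  obtain ⟨e, h⟩ := e
  rw [fin3_aux hij hik hjk] at h
  rw [Finset.sum_insert (by simp [hij, hik]), Finset.sum_pair hjk,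
    Finset.prod_insert (by simp [hij, hik]), Finset.prod_pair hjk] at h
  rw [add_assoc, mul_assoc]
  exact h

theorem inc_free : ¬ HasBerge oneC4 (inc p) := by
  rintro ⟨r, c, h⟩
  set v := r (Sum.inl 0) with hv
  set a : Fin 2 → Fin 3 × Vx p := fun s => r (Sum.inr (Sum.inl s)) with ha
  set b : Fin 2 → Fin 3 × Vx p := fun t => r (Sum.inr (Sum.inr t)) with hb
  set e : Fin 2 → Fin 2 → Ed p := fun s t => c (0, (s, t)) with he
  have hev : ∀ s t, (e s t).1 v.1 = v.2 := fun s t =>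
    of_decide_eq_true (h (Sum.inl 0) (0, (s, t)) rfl)
  have hea : ∀ s t, (e s t).1 (a s).1 = (a s).2 := fun s t =>
    of_decide_eq_true (h (Sum.inr (Sum.inl s)) (0, (s, t)) (by simp [oneC4, C4, mprod, I2]))
  have heb : ∀ s t, (e s t).1 (b t).1 = (b t).2 := fun s t =>
    of_decide_eq_true (h (Sum.inr (Sum.inr t)) (0, (s, t)) (by simp [oneC4, C4, mprod, I2]))
  have hva : ∀ s, v.1 ≠ (a s).1 := by
    intro s hs
    have h1 := hev s 0
    have h2 := hea s 0
    rw [hs, h2] at h1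
    have h3 : v = a s := Prod.ext hs h1.symm
    have := r.injective h3
    simp at this
  have hvb : ∀ t, v.1 ≠ (b t).1 := by
    intro t ht
    have h1 := hev 0 t
    have h2 := heb 0 t
    rw [ht, h2] at h1
    have h3 : v = b t := Prod.ext ht h1.symm
    have := r.injective h3
    simp at this
  have hab : ∀ s t, (a s).1 ≠ (b t).1 := by
    intro s t hs
    have h1 := hea s t
    have h2 := heb s t
    rw [hs, h2] at h1
    have h3 : a s = b t := Prod.ext hs h1.symm
    have := r.injective h3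
    simp at this
  have ha1 : (a 1).1 = (a 0).1 :=
    fin3_third (hva 0) (hvb 0) (hab 0 0) (hva 1).symm (hab 1 0)
  have hb1 : (b 1).1 = (b 0).1 :=
    fin3_third (hvb 0) (hva 0) (hab 0 0).symm (hvb 1).symm (hab 0 1).symm
  have hane : (a 0).2 ≠ (a 1).2 := by
    intro h1
    have h2 : a 0 = a 1 := Prod.ext ha1.symm h1
    have := r.injective h2
    simp at this
  have hbne : (b 0).2 ≠ (b 1).2 := by
    intro h1
    have h2 : b 0 = b 1 := Prod.ext hb1.symm h1
    have := r.injective h2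
    simp at this
  have key : ∀ s t, v.2.1 + (a s).2.1 + (b t).2.1 =
      (v.2.2 : ZMod p) * ((a s).2.2 : ZMod p) * ((b t).2.2 : ZMod p) := by
    intro s t
    have h1 := eq_of_edge p (hva s) (hvb t) (hab s t) (e s t)
    rwa [hev, hea, heb] at h1
  have k00 := key 0 0
  have k01 := key 0 1
  have k10 := key 1 0
  have k11 := key 1 1
  have hz : (v.2.2 : ZMod p) * ((((a 0).2.2 : (ZMod p)ˣ) : ZMod p) - ((a 1).2.2 : ZMod p)) *
      ((((b 0).2.2 : (ZMod p)ˣ) : ZMod p) - ((b 1).2.2 : ZMod p)) = 0 := by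
    linear_combination k01 + k10 - k00 - k11
  have hv0 : (v.2.2 : ZMod p) ≠ 0 := v.2.2.ne_zero
  rcases mul_eq_zero.1 hz with hz | hz
  · have h1 := (mul_eq_zero.1 hz).resolve_left hv0
    have h2 : (a 0).2.1 = (a 1).2.1 := by
      linear_combination k00 - k10 + (v.2.2 : ZMod p) * ((b 0).2.2 : ZMod p) * h1
    exact hane (Prod.ext h2 (Units.ext (sub_eq_zero.1 h1)))
  · have h2 : (b 0).2.1 = (b 1).2.1 := by
      linear_combination k00 - k01 + (v.2.2 : ZMod p) * ((a 0).2.2 : ZMod p) * hz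
    exact hbne (Prod.ext h2 (Units.ext (sub_eq_zero.1 hz)))

/-- Many edges. -/
def mk (q : ZMod p × ZMod p × (ZMod p)ˣ × (ZMod p)ˣ × (ZMod p)ˣ) : Ed p :=
  ⟨![(q.1, q.2.2.1), (q.2.1, q.2.2.2.1),
    ((q.2.2.1 : ZMod p) * (q.2.2.2.1 : ZMod p) * (q.2.2.2.2 : ZMod p) - q.1 - q.2.1, q.2.2.2.2)],
    by simp [Fin.sum_univ_three, Fin.prod_univ_three]⟩

theorem mk_inj : Function.Injective (mk p) := by
  rintro ⟨x1, y1, x2, y2, z2⟩ ⟨x1', y1', x2', y2', z2'⟩ h
  have h0 := congrFun (congrArg Subtype.val h) 0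
  have h1 := congrFun (congrArg Subtype.val h) 1
  have h2 := congrFun (congrArg Subtype.val h) 2
  simp only [mk, Matrix.cons_val_zero, Matrix.cons_val_one, Matrix.cons_val_two, Matrix.head_cons,
    Matrix.tail_cons, Prod.mk.injEq] at h0 h1 h2
  obtain ⟨rfl, rfl⟩ := h0
  obtain ⟨rfl, rfl⟩ := h1
  obtain ⟨-, rfl⟩ := h2
  rfl

noncomputable instance : Fintype (Ed p) := Fintype.ofFinite _

theorem card_edges : p ^ 2 * (p - 1) ^ 3 ≤ Fintype.card (Ed p) := by
  have h := Fintype.card_le_of_injective _ (mk_inj p)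
  simp only [Fintype.card_prod, ZMod.card, ZMod.card_units] at h
  calc p ^ 2 * (p - 1) ^ 3 = p * (p * ((p - 1) * ((p - 1) * (p - 1)))) := by ring
    _ ≤ _ := h

theorem lower {m : ℕ} (hm : 3 * p ^ 2 ≤ m) : p ^ 2 * (p - 1) ^ 3 ≤ Bh m oneC4 := by
  refine (card_edges p).trans (card_le_Bh ?_ (inc_simple p) (inc_free p) ?_)
  · rintro (i | i | i)
    · exact ⟨(0, (0, 0)), rfl⟩
    · exact ⟨(0, (i, 0)), by simp [oneC4, C4, mprod, I2]⟩
    · exact ⟨(0, (0, i)), by simp [oneC4, C4, mprod, I2]⟩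
  · simp only [Fintype.card_prod, ZMod.card, ZMod.card_units, Fintype.card_fin]
    refine le_trans ?_ hm
    have : p - 1 ≤ p := Nat.sub_le _ _
    nlinarith

end construction

theorem bound {m : ℕ} (hm : 12 ≤ m) : (m : ℝ) ^ (5 / 2 : ℝ) / 4000 ≤ (Bh m oneC4 : ℝ) := by
  set s := Nat.sqrt (m / 3) with hs
  have hs2 : 2 ≤ s := by
    rw [hs, Nat.le_sqrt]; omega
  obtain ⟨p, hp, h1, h2⟩ := Nat.exists_prime_lt_and_le_two_mul (s / 2) (by omega)
  have : Fact p.Prime := ⟨hp⟩
  have hps : p ≤ s := by omega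
  have h3 : 3 * p ^ 2 ≤ m := by
    have h4 : s * s ≤ m / 3 := Nat.sqrt_le (m / 3)
    have h5 : p ^ 2 ≤ s * s := by nlinarith
    omega
  have h6 : s + 1 ≤ 2 * p := by omega
  have h7 : m < 3 * ((s + 1) * (s + 1)) := by
    have : m / 3 < (s + 1) * (s + 1) := Nat.lt_succ_sqrt (m / 3)
    omega
  have h8 : (m : ℝ) ≤ 12 * (p : ℝ) ^ 2 := by
    have : m ≤ 12 * p ^ 2 := by nlinarith
    exact_mod_cast this
  have hp2 : 2 ≤ p := hp.two_le
  have hpr : (2 : ℝ) ≤ p := by exact_mod_cast hp2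
  have h9 := lower p h3
  have h10 : ((p ^ 2 * (p - 1) ^ 3 : ℕ) : ℝ) ≤ (Bh m oneC4 : ℝ) := by exact_mod_cast h9
  rw [Nat.cast_mul, Nat.cast_pow, Nat.cast_pow, Nat.cast_sub (by omega), Nat.cast_one] at h10
  refine le_trans ?_ h10
  have h11 : (m : ℝ) ^ (5 / 2 : ℝ) ≤ (12 * (p : ℝ) ^ 2) ^ (5 / 2 : ℝ) :=
    Real.rpow_le_rpow (by positivity) h8 (by norm_num)
  have h12 : (12 * (p : ℝ) ^ 2) ^ (5 / 2 : ℝ) = (12 : ℝ) ^ (5 / 2 : ℝ) * (p : ℝ) ^ 5 := by
    rw [Real.mul_rpow (by norm_num) (by positivity), ← Real.rpow_natCast (p : ℝ) 2,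
      ← Real.rpow_mul (by positivity), ← Real.rpow_natCast (p : ℝ) 5]
    norm_num
  have h13 : (12 : ℝ) ^ (5 / 2 : ℝ) ≤ 500 := by
    have h14 : (12 : ℝ) ^ (5 / 2 : ℝ) = (12 ^ 5 : ℝ) ^ (1 / 2 : ℝ) := by
      rw [← Real.rpow_natCast (12 : ℝ) 5, ← Real.rpow_mul (by norm_num)]
      norm_num
    rw [h14, ← Real.sqrt_eq_rpow, Real.sqrt_le_left (by norm_num)]
    norm_num
  have h15 : (p : ℝ) / 2 ≤ (p : ℝ) - 1 := by linarith
  have h16 : ((p : ℝ) / 2) ^ 3 ≤ ((p : ℝ) - 1) ^ 3 := pow_le_pow_left₀ (by positivity) h15 3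
  have h17 : (0 : ℝ) ≤ (p : ℝ) ^ 5 := by positivity
  calc (m : ℝ) ^ (5 / 2 : ℝ) / 4000 ≤ (500 * (p : ℝ) ^ 5) / 4000 := by
        rw [h12] at h11
        have := mul_le_mul_of_nonneg_right h13 h17
        linarith
    _ = (p : ℝ) ^ 2 * ((p : ℝ) / 2) ^ 3 := by ring
    _ ≤ (p : ℝ) ^ 2 * ((p : ℝ) - 1) ^ 3 := mul_le_mul_of_nonneg_left h16 (by positivity)

/-- `Bh(m, 1_1 × C_4) ≥ m ^ (5 / 2) / 4000` for all `m ≥ 12`; in particular
`Bh(m, 1_1 × C_4)` is not `Θ(m ^ 2)`. -/
theorem result :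
    (∀ m : ℕ, 12 ≤ m → (m : ℝ) ^ (5 / 2 : ℝ) / 4000 ≤ (Bh m oneC4 : ℝ)) ∧
    ¬ (fun m : ℕ => (Bh m oneC4 : ℝ)) =Θ[atTop] (fun m : ℕ => (m : ℝ) ^ 2) := by
  refine ⟨fun m hm => bound hm, fun h => ?_⟩
  obtain ⟨C, hC, h1⟩ := h.1.exists_pos
  rw [IsBigOWith, eventually_atTop] at h1
  obtain ⟨M, hM⟩ := h1
  obtain ⟨m, hm⟩ := exists_nat_gt ((4000 * C) ^ 2 + M + 12)
  have hMm : (M : ℝ) ≤ m := by nlinarith [sq_nonneg (4000 * C)]
  have h12 : (12 : ℝ) ≤ m := by
    have : (0 : ℝ) ≤ M := Nat.cast_nonneg _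
    nlinarith [sq_nonneg (4000 * C)]
  have h2 := hM m (by exact_mod_cast hMm)
  rw [Real.norm_of_nonneg (Nat.cast_nonneg _), Real.norm_of_nonneg (by positivity)] at h2
  have h3 := bound (m := m) (by exact_mod_cast h12)
  have hm0 : (0 : ℝ) < m := by linarith
  have h4 : (m : ℝ) ^ (5 / 2 : ℝ) = (m : ℝ) ^ 2 * √m := by
    rw [Real.sqrt_eq_rpow, ← Real.rpow_natCast (m : ℝ) 2, ← Real.rpow_add hm0]
    norm_num
  rw [h4] at h3
  have h5 : √(m : ℝ) ≤ 4000 * C := by
    have h6 : (m : ℝ) ^ 2 * √m ≤ (m : ℝ) ^ 2 * (4000 * C) := by linarith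
    exact le_of_mul_le_mul_left h6 (by positivity)
  have h7 : (m : ℝ) ≤ (4000 * C) ^ 2 := (Real.sqrt_le_left (by positivity)).1 h5
  have : (0 : ℝ) ≤ M := Nat.cast_nonneg _
  linarith

end Pool.Agent.Zk72.Kept.BergeFiveHalves
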