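import Mathlib
import Pool.Agent.K3h4.H48.Fam

/-!
# `∑_{k<p} C(4k,2k+1) C(2k,k) / 48^k` is divisible by `p^2`

For every prime `p > 3` the number `A_p = ∑_{k<p} 48^{-k} C(4k,2k+1) C(2k,k)` is `0` modulo `p^2`.

Sketch of the proof.  The term with index `k` is `2k/(2k+1)` times `C(4k,2k) C(2k,k) / 48^k`.  Put a
parameter `u` into it: the product of the numbers `2l+1-u`, `l < 2k`, `l ≠ k`, times `2k`, over the
product of the numbers `4(1+i)(3(1+i)-u)`, `i < k`.  The truncated sum is modulo `p^2` an affine function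
of `u ∈ pZ_p`, so twice its value at `0` is three times the value at `p` minus the value at `3p`.
At `u = p` and at `u = 3p` the sum is exactly `0`, by creative telescoping in steps of three.
-/

set_option autoImplicit false

namespace Pool.Agent.Zk72.Kept.FortyEight

open Finset Pool.Agent.R439.PL Pool.Agent.R439.PL.S4 Pool.Agent.R488.Tri Pool.Agent.R488.Cub
  Pool.Agent.K3h4.H48

/-- `x ≡ y (mod p^2)` for rational numbers `x`, `y` with denominators prime to `p`:
`(x - y) / p^2` has denominator prime to `p`. -/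
def CongrSq (p : ℕ) (x y : ℚ) : Prop :=
  ¬ p ∣ x.den ∧ ¬ p ∣ y.den ∧ ¬ p ∣ ((x - y) / (p : ℚ) ^ 2).den

/-- `A_p` -/
def A (p : ℕ) : ℚ :=
  ∑ k ∈ range p, ((4 * k).choose (2 * k + 1) : ℚ) * ((2 * k).choose k : ℚ) / 48 ^ k

theorem congr_of_EQ {p : ℕ} [Fact p.Prime] {x y : ℚ} (h : EQ p 2 x y) : CongrSq p x y := by
  refine ⟨?_, ?_, den_of_I h.2.2⟩
  · have := den_of_I (p := p) (k := 0) (I_zero_iff.2 h.1)
    rwa [pow_zero, div_one] at this
  · have := den_of_I (p := p) (k := 0) (I_zero_iff.2 h.2.1)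
    rwa [pow_zero, div_one] at this

/-- Full (positive) answer to Q1: `A_p ≡ 0 (mod p^2)` for every prime `p > 3`. -/
theorem result (p : ℕ) (hp : p.Prime) (h3 : 3 < p) : CongrSq p (A p) 0 := by
  have : Fact p.Prime := ⟨hp⟩
  have h2 : p % 2 = 1 := by
    rcases hp.eq_two_or_odd with h | h
    · omega
    · exact h
  have hp3 : p % 3 ≠ 0 := by
    intro h
    have := (Nat.prime_dvd_prime_iff_eq Nat.prime_three hp).1 (Nat.dvd_of_mod_eq_zero h)
    omega
  have hU2 : U p (2 : ℚ) := by exact_mod_cast U_nat (p := p) (k := 2) (by norm_num) (by omega)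
  have e := interp13 (lin_AA (p := p) h3) hU2
  have e1 : AA p (p : ℚ) = 0 := by
    have h := AA_1 (p := p) (n := p / 2) (by omega) (by omega) (by omega)
    rwa [show (2 * ((p / 2 : ℕ) : ℚ) + 1) = p by
      have : 2 * (p / 2) + 1 = p := by omega
      exact_mod_cast this] at h
  have e3 : AA p (3 * (p : ℚ)) = 0 := by
    obtain ⟨m, hm⟩ : ∃ m, (3 * p) / 2 = 3 * m + 1 := ⟨(3 * p) / 2 / 3, by omega⟩
    have h := AA_3 (p := p) (n := 3 * m + 1) (by omega) (by omega)
    rw [Aval1] at h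
    rwa [show (2 * ((3 * m + 1 : ℕ) : ℚ) + 1) = 3 * p by
      have : 2 * (3 * m + 1) + 1 = 3 * p := by omega
      exact_mod_cast this] at h
  rw [e1, e3, AA_0] at e
  have h := congr_of_EQ e
  simpa [A] using h

end Pool.Agent.Zk72.Kept.FortyEight
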